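import Pool.Agent.Y477.DC.Core

/-!
Let `N` be a set of positive integers and `G` a group which embeds in an orderable group with `n`-th
roots for all `n ∈ N` (for `N` the set of all positive integers: in a divisible orderable group).
There is an orderable group `K ⊇ G` with `n`-th roots, `n ∈ N`, such that every homomorphism from `G`
to an orderable group `H` with `n`-th roots, compatible with orders or not, extends uniquely to `K`;
the image of the extension is the isolator of the image of `G`. For EVERY total order of `G` with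
which `G` embeds in an ordered group with roots, the same group `K` is the universal minimal
completion of `G`, and the order of `K` can be chosen such that the extension of a given monotone
homomorphism is monotone. The universal minimal completion is unique up to a unique isomorphism, and
every endomorphism of the group `G` extends uniquely to `K`.
-/

namespace Pool.Agent.Results.MP_d29ee2_al.ReflectionAllOrders

open Pool.Agent.Y477.DC

universe u v w

theorem result (N : Set ℕ) (G : Type u) [Group G]
    (hG : ∃ (D : Type w) (_ : Group D) (j : G →* D),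
      Orderable D ∧ IsDiv N D ∧ Function.Injective j) :
    ∃ (K : Type u) (_ : Group K) (κ : G →* K),
      (Function.Injective κ ∧ Orderable K ∧ IsDiv N K ∧ isolator N κ.range = ⊤) ∧
      (∀ (H : Type v) [Group H], Orderable H → IsDiv N H →
        (∀ f : G →* H, ∃! φ : K →* H, φ.comp κ = f) ∧
        ∀ φ : K →* H, φ.range = isolator N (φ.comp κ).range) ∧
      (∀ [LinearOrder G] [MulLeftMono G] [MulRightMono G], Completable.{u, v} N G →
        ∀ (H : Type v) [Group H] [LinearOrder H] [MulLeftMono H] [MulRightMono H], IsDiv N H →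
          ∀ f : G →* H, Monotone f →
            ∃ (_ : LinearOrder K) (_ : MulLeftMono K) (_ : MulRightMono K),
              Universal.{u, v, u} N κ ∧ ∀ φ : K →* H, φ.comp κ = f → Monotone φ) ∧
      (∀ [LinearOrder G] [MulLeftMono G] [MulRightMono G] (K' : Type u) [Group K'] [LinearOrder K']
        [MulLeftMono K'] [MulRightMono K'] (κ' : G →* K'), Universal.{u, u, u} N κ' →
          ∃! e : K ≃* K', ∀ g, e (κ g) = κ' g) ∧
      ∀ α : G →* G, ∃! β : K →* K, β.comp κ = κ.comp α := by
  refine ⟨Ref N G, inferInstance, can N G, ⟨?_, orderable_ref, div_ref, gen_ref⟩,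
    fun H _ hH hdiv => ⟨fun f => ext_unique hH hdiv f,
      fun φ => range_eq hH div_ref (can N G) gen_ref φ⟩, ?_, ?_,
    fun α => ext_unique orderable_ref div_ref _⟩
  · obtain ⟨D, _, j, hD, hdiv, hj⟩ := hG
    obtain ⟨φ, hφ⟩ := exists_ext hD hdiv j
    intro a b hab
    apply hj
    rw [← hφ]
    exact congrArg φ hab
  · intro _ _ _ hc H _ _ _ _ hdiv f hf
    obtain ⟨lo, h1, h2, h3, h4⟩ := exists_order hc hdiv f hf
    refine ⟨lo, h1, h2, ⟨h3, ?_⟩, h4⟩
    intro H' _ _ hl hr h hh
    have hH' : Orderable H' := ⟨inferInstance, hl, hr⟩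
    obtain ⟨φ, hφ⟩ := exists_ext hH' hh.2.1 h
    refine ⟨φ, ?_, hφ⟩
    rw [← MonoidHom.range_eq_top, range_eq hH' div_ref (can N G) gen_ref φ, hφ]
    exact hh.2.2
  · intro _ _ _ K' _ _ hl hr κ' hκ'
    have hK' : Orderable K' := ⟨inferInstance, hl, hr⟩
    have hc : Completable.{u, u} N G :=
      ⟨K', inferInstance, inferInstance, hl, hr, κ', hκ'.1.1, hκ'.1.2.1⟩
    obtain ⟨φ, hφ⟩ := exists_ext hK' hκ'.1.2.1 κ'
    obtain ⟨lo, h1, h2, h3, -⟩ := exists_order hc hκ'.1.2.1 κ' hκ'.1.1.monotone
    obtain ⟨ψ, -, hψ⟩ := hκ'.2 (Ref N G) (can N G) h3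
    have h5 : ψ.comp φ = MonoidHom.id _ := by
      apply hom_eq orderable_ref (can N G) gen_ref
      rw [MonoidHom.comp_assoc, hφ, hψ]
      rfl
    have hinj : Function.Injective φ := by
      intro a b hab
      have h6 := DFunLike.congr_fun h5 a
      have h7 := DFunLike.congr_fun h5 b
      have h8 : ψ (φ a) = a := h6
      have h9 : ψ (φ b) = b := h7
      rw [← h8, ← h9, hab]
    have hsurj : Function.Surjective φ := by
      rw [← MonoidHom.range_eq_top, range_eq hK' div_ref (can N G) gen_ref φ, hφ]
      exact hκ'.1.2.2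
    refine ⟨MulEquiv.ofBijective φ ⟨hinj, hsurj⟩, fun g => DFunLike.congr_fun hφ g, ?_⟩
    intro e he
    have h6 : e.toMonoidHom = φ := by
      apply hom_eq hK' (can N G) gen_ref
      rw [hφ]
      ext g
      exact he g
    ext x
    exact DFunLike.congr_fun h6 x

end Pool.Agent.Results.MP_d29ee2_al.ReflectionAllOrders
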